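import Mathlib

namespace Pool.Agent.MP_405fb9_co

/-- `D` is a dominating set of `G`: every vertex outside `D` has a neighbour in `D`. -/
def IsDominating {V : Type} (G : SimpleGraph V) (D : Finset V) : Prop :=
  ∀ v, v ∉ D → ∃ u ∈ D, G.Adj v u

/-- The domination number, the least size of a dominating set. -/
noncomputable def domNumber {V : Type} (G : SimpleGraph V) : ℕ :=
  sInf {k | ∃ D : Finset V, IsDominating G D ∧ D.card = k}

/-- `D` is a `γ`-set: a dominating set of size `γ(G)`. -/
def IsGammaSet {V : Type} (G : SimpleGraph V) (D : Finset V) : Prop :=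
  IsDominating G D ∧ D.card = domNumber G

/-- `G` is a hypo-unique domination graph: it has at least two `γ`-sets, but `G - v` has exactly
one `γ`-set for every vertex `v`. -/
def HypoUD {V : Type} (G : SimpleGraph V) : Prop :=
  (∃ D D' : Finset V, D ≠ D' ∧ IsGammaSet G D ∧ IsGammaSet G D') ∧
    ∀ v : V, ∃! D, IsGammaSet (G.induce {u | u ≠ v}) D

/-- `G` is domination bicritical: `γ(G - {x, y}) < γ(G)` for all `x ≠ y`. -/
def Bicritical {V : Type} (G : SimpleGraph V) : Prop :=
  ∀ x y : V, x ≠ y → domNumber (G.induce {u | u ≠ x ∧ u ≠ y}) < domNumber G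

end Pool.Agent.MP_405fb9_co
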