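import Mathlib
import Pool.Agent.MP_405fb9_co.Defs

namespace Pool.Agent.MP_405fb9_co

lemma domNumber_le {V : Type} (G : SimpleGraph V) {D : Finset V} (h : IsDominating G D) :
    domNumber G ≤ D.card := Nat.sInf_le ⟨D, h, rfl⟩

lemma domNumber_eq {V : Type} (G : SimpleGraph V) {D : Finset V} (h : IsDominating G D) {k : ℕ}
    (hk : D.card = k) (hmin : ∀ D', IsDominating G D' → k ≤ D'.card) : domNumber G = k := by
  apply le_antisymm
  · rw [← hk]; exact domNumber_le G h
  · refine le_csInf (s := {k | ∃ D : Finset V, IsDominating G D ∧ D.card = k})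
      ⟨D.card, D, h, rfl⟩ ?_
    rintro m ⟨D', hD', rfl⟩
    exact hmin D' hD'

/-- the Wagner graph -/
abbrev W : SimpleGraph (ZMod 8) := SimpleGraph.circulantGraph ({1, 4} : Set (ZMod 8))

/-- boolean adjacency -/
def adjB (a b : ZMod 8) : Bool := a - b = 1 || b - a = 1 || a - b = 4

lemma adj_iff (a b : ZMod 8) : W.Adj a b ↔ adjB a b = true := by
  have h : ∀ a b : ZMod 8, (a ≠ b ∧ ((a - b = 1 ∨ a - b = 4) ∨ (b - a = 1 ∨ b - a = 4))) ↔
      adjB a b = true := by decide
  rw [← h a b]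
  simp [W, SimpleGraph.circulantGraph_adj]

lemma card_le_two_iff {V : Type} [DecidableEq V] [Inhabited V] {D : Finset V} (h : D.card ≤ 2) :
    ∃ a b, D ⊆ {a, b} := by
  interval_cases hc : D.card
  · exact ⟨default, default, by rw [Finset.card_eq_zero.1 hc]; exact Finset.empty_subset _⟩
  · obtain ⟨a, rfl⟩ := Finset.card_eq_one.1 hc
    exact ⟨a, a, by simp⟩
  · obtain ⟨a, b, _, rfl⟩ := Finset.card_eq_two.1 hc
    exact ⟨a, b, Finset.Subset.refl _⟩

lemma F1 : ∀ a b : ZMod 8, ∃ v : ZMod 8, v ≠ a ∧ v ≠ b ∧ adjB v a = false ∧ adjB v b = false := by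
  decide

lemma F3 : ∀ v a : ZMod 8, ∃ w : ZMod 8, w ≠ v ∧ w ≠ a ∧ adjB w a = false := by decide

lemma F4 : ∀ v a b : ZMod 8, (∀ w : ZMod 8, w = v ∨ w = a ∨ w = b ∨ adjB w a = true ∨
    adjB w b = true) → (a = v + 3 ∧ b = v + 5) ∨ (a = v + 5 ∧ b = v + 3) ∨ a = v ∨ b = v := by
  decide

lemma F5 : ∀ v w : ZMod 8, w = v ∨ w = v + 3 ∨ w = v + 5 ∨ adjB w (v + 3) = true ∨
    adjB w (v + 5) = true := by
  decide

lemma F6 : ∀ x y : ZMod 8, x ≠ y → ∃ a b : ZMod 8, a ≠ x ∧ a ≠ y ∧ b ≠ x ∧ b ≠ y ∧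
    ∀ w : ZMod 8, w = x ∨ w = y ∨ w = a ∨ w = b ∨ adjB w a = true ∨ adjB w b = true := by
  decide

lemma F7 : ∀ v : ZMod 8, v + 3 ≠ v ∧ v + 5 ≠ v ∧ v + 3 ≠ v + 5 := by decide

lemma not_dom {D : Finset (ZMod 8)} (h : D.card ≤ 2) : ¬ IsDominating W D := by
  intro hD
  obtain ⟨a, b, hab⟩ := card_le_two_iff h
  obtain ⟨v, h1, h2, h3, h4⟩ := F1 a b
  have hv : v ∉ D := by
    intro hv
    have := hab hv
    simp [h1, h2] at this
  obtain ⟨u, hu, hadj⟩ := hD v hv
  rw [adj_iff] at hadj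
  have := hab hu
  simp only [Finset.mem_insert, Finset.mem_singleton] at this
  rcases this with rfl | rfl
  · rw [hadj] at h3; exact absurd h3 (by decide)
  · rw [hadj] at h4; exact absurd h4 (by decide)

lemma dom3 (D : Finset (ZMod 8)) (h : ∀ v : ZMod 8, v ∈ D ∨ ∃ u ∈ D, adjB v u = true) :
    IsDominating W D := by
  intro v hv
  rcases h v with h | ⟨u, hu, h⟩
  · exact absurd h hv
  · exact ⟨u, hu, (adj_iff v u).2 h⟩

lemma domW : domNumber W = 3 := by
  refine domNumber_eq W (D := {0, 3, 5}) (dom3 _ (by decide)) (by decide) ?_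
  intro D' hD'
  by_contra hlt
  exact not_dom (by omega) hD'

/-- a dominating pair of `G - S` gives a covering pair -/
lemma image_cover {P : ZMod 8 → Prop} (D : Finset {u // P u})
    (hD : IsDominating (W.induce {u | P u}) D) (w : ZMod 8) (hw : P w) :
    w ∈ D.map (Function.Embedding.subtype P) ∨
      ∃ u ∈ D.map (Function.Embedding.subtype P), adjB w u = true := by
  by_cases h : (⟨w, hw⟩ : {u // P u}) ∈ D
  · left
    rw [Finset.mem_map]
    exact ⟨_, h, rfl⟩
  · right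
    obtain ⟨u, hu, hadj⟩ := hD ⟨w, hw⟩ h
    refine ⟨u.1, ?_, ?_⟩
    · rw [Finset.mem_map]
      exact ⟨u, hu, rfl⟩
    · rw [← adj_iff]
      exact hadj

lemma dom_of_cover {P : ZMod 8 → Prop} (D : Finset {u // P u})
    (h : ∀ w, P w → w ∈ D.map (Function.Embedding.subtype P) ∨
      ∃ u ∈ D.map (Function.Embedding.subtype P), adjB w u = true) :
    IsDominating (W.induce {u | P u}) D := by
  intro w hw
  rcases h w.1 w.2 with h | ⟨u, hu, h⟩
  · exfalso
    rw [Finset.mem_map] at h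
    obtain ⟨z, hz, hzw⟩ := h
    apply hw
    have : z = w := Subtype.ext hzw
    rw [← this]; exact hz
  · rw [Finset.mem_map] at hu
    obtain ⟨z, hz, rfl⟩ := hu
    exact ⟨z, hz, (adj_iff _ _).2 h⟩

/-- the unique `γ`-set of `W - v` -/
def Dv (v : ZMod 8) : Finset {u : ZMod 8 // u ≠ v} :=
  {⟨v + 3, (F7 v).1⟩, ⟨v + 5, (F7 v).2.1⟩}

lemma Dv_map (v : ZMod 8) :
    (Dv v).map (Function.Embedding.subtype fun u => u ≠ v) = {v + 3, v + 5} := by
  simp [Dv]

lemma Dv_dom (v : ZMod 8) : IsDominating (W.induce {u | u ≠ v}) (Dv v) := by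
  refine dom_of_cover (P := fun u => u ≠ v) _ ?_
  intro w hw
  rw [Dv_map]
  simp only [Finset.mem_insert, Finset.mem_singleton, exists_eq_or_imp, exists_eq_left]
  have := F5 v w
  tauto

lemma Dv_card (v : ZMod 8) : (Dv v).card = 2 := by
  rw [← Finset.card_map (Function.Embedding.subtype fun u => u ≠ v), Dv_map,
    Finset.card_pair (F7 v).2.2]

lemma two_le (v : ZMod 8) (D : Finset {u : ZMod 8 // u ≠ v})
    (hD : IsDominating (W.induce {u | u ≠ v}) D) : 2 ≤ D.card := by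
  by_contra hlt
  rw [not_le] at hlt
  have hcov := image_cover (P := fun u => u ≠ v) D hD
  have hc : (D.map (Function.Embedding.subtype fun u => u ≠ v)).card ≤ 1 := by
    rw [Finset.card_map]; omega
  obtain ⟨a, ha⟩ := Finset.card_le_one_iff_subset_singleton.1 hc
  obtain ⟨w, hwv, hwa, hadj⟩ := F3 v a
  rcases hcov w hwv with h | ⟨u, hu, h⟩
  · have := ha h
    simp [hwa] at this
  · have := ha hu
    rw [Finset.mem_singleton] at this
    rw [this, hadj] at h
    exact absurd h (by decide)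

lemma dom_sub (v : ZMod 8) : domNumber (W.induce {u | u ≠ v}) = 2 :=
  domNumber_eq _ (Dv_dom v) (Dv_card v) (two_le v)

lemma unique (v : ZMod 8) (D : Finset {u : ZMod 8 // u ≠ v})
    (hD : IsDominating (W.induce {u | u ≠ v}) D) (hc : D.card = 2) : D = Dv v := by
  have hcov := image_cover (P := fun u => u ≠ v) D hD
  apply Finset.map_injective (Function.Embedding.subtype fun u => u ≠ v)
  rw [Dv_map]
  rw [← Finset.card_map (Function.Embedding.subtype fun u => u ≠ v)] at hc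
  obtain ⟨a, b, hab, hD2⟩ := Finset.card_eq_two.1 hc
  have hav : a ≠ v := by
    have : a ∈ D.map (Function.Embedding.subtype fun u => u ≠ v) := by rw [hD2]; simp
    rw [Finset.mem_map] at this
    obtain ⟨z, _, rfl⟩ := this
    exact z.2
  have hbv : b ≠ v := by
    have : b ∈ D.map (Function.Embedding.subtype fun u => u ≠ v) := by rw [hD2]; simp
    rw [Finset.mem_map] at this
    obtain ⟨z, _, rfl⟩ := this
    exact z.2
  rw [hD2] at hcov ⊢
  have := F4 v a b (fun w => by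
    by_cases hw : w = v
    · exact Or.inl hw
    · have := hcov w hw
      simp only [Finset.mem_insert, Finset.mem_singleton, exists_eq_or_imp, exists_eq_left] at this
      tauto)
  rcases this with ⟨rfl, rfl⟩ | ⟨rfl, rfl⟩ | h | h
  · rfl
  · exact Finset.pair_comm _ _
  · exact absurd h hav
  · exact absurd h hbv

theorem wagner_hypoUD : HypoUD W := by
  refine ⟨⟨{0, 3, 5}, {1, 4, 6}, by decide, ⟨dom3 _ (by decide), ?_⟩, ⟨dom3 _ (by decide), ?_⟩⟩, ?_⟩
  · rw [domW]; decide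
  · rw [domW]; decide
  · intro v
    refine ⟨Dv v, ⟨Dv_dom v, ?_⟩, ?_⟩
    · rw [dom_sub, Dv_card]
    · rintro D ⟨hD, hc⟩
      rw [dom_sub] at hc
      exact unique v D hD hc

theorem wagner_bicritical : Bicritical W := by
  intro x y hxy
  rw [domW]
  obtain ⟨a, b, hax, hay, hbx, hby, h⟩ := F6 x y hxy
  have hdom : IsDominating (W.induce {u | u ≠ x ∧ u ≠ y})
      ({⟨a, hax, hay⟩, ⟨b, hbx, hby⟩} : Finset {u : ZMod 8 // u ≠ x ∧ u ≠ y}) := by
    refine dom_of_cover (P := fun u => u ≠ x ∧ u ≠ y) _ ?_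
    intro w hw
    have := h w
    simp
    tauto
  refine lt_of_le_of_lt (domNumber_le _ hdom) ?_
  exact lt_of_le_of_lt Finset.card_le_two (by norm_num)

end Pool.Agent.MP_405fb9_co
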